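import Pool.Agent.Run7.h874.Iface

/-!
# Interface for MP_c8123f_an, Q1: a collision-free periodic solution in the class `(1, 0, -1)`

Masses `3/5, 1, 1`. Relative positions `A = x₂ - x₁`, `B = x₃ - x₁` (bodies numbered 1, 2, 3),
state `((A, B), (A', B'))`. Start: `A = L`, `B = -L`, `A' = B' = w` (body 1 in the middle); at time `T`
the bodies are collinear (body 2 in the middle) with velocities orthogonal to the line. The solution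
extends by symmetry to a `4T`-periodic one.
-/

set_option autoImplicit false

namespace Run7.h874.PB

open Complex Set Run7.h874

/-- accelerations of `A`, `B` (kernel cut off at `ϱ`) -/
noncomputable def G (ϱ : ℝ) (z : ℂ × ℂ) : ℂ × ℂ :=
  (-(8/5 : ℂ) * gc ϱ z.1 - gc ϱ z.2 + gc ϱ (z.2 - z.1),
   -(8/5 : ℂ) * gc ϱ z.2 - gc ϱ z.1 - gc ϱ (z.2 - z.1))

noncomputable def fb (ϱ : ℝ) (y : P4) : P4 := (y.2, G ϱ y.1)

/-- cut-off radius -/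
noncomputable def rb : ℝ := 1/4

/-- weighted norm of a state -/
noncomputable def nw (y : P4) : ℝ := max ‖y.1‖ (‖y.2‖ / 7)

abbrev R3 := Fin 3 → ℝ

/-- affine interpolation of four states -/
noncomputable def aff (y : Fin 4 → P4) (a : R3) : P4 :=
  y 0 + ∑ j : Fin 3, (a j) • (y j.succ - y 0)

/-- four reference curves (with exact velocities, small acceleration defect) on a step `[0, h]` -/
structure Tube (h σ εr : ℝ) (y : Fin 4 → ℝ → P4) : Prop where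
  d1 : ∀ j, ∀ s ∈ Icc 0 h, HasDerivAt (fun s => (y j s).1) (y j s).2 s
  d2 : ∀ j, ∀ s ∈ Icc 0 h, ∃ acc : ℂ × ℂ, HasDerivAt (fun s => (y j s).2) acc s ∧
    ‖acc - G 0 (y j s).1‖ ≤ εr
  near : ∀ j, ∀ s ∈ Icc 0 h, ‖(y j s).1 - (y 0 s).1‖ ≤ σ
  hA : ∀ s ∈ Icc 0 h, 99/100 ≤ ‖(y 0 s).1.1‖
  hB : ∀ s ∈ Icc 0 h, 49/100 ≤ ‖(y 0 s).1.2‖
  hC : ∀ s ∈ Icc 0 h, 62/100 ≤ ‖(y 0 s).1.2 - (y 0 s).1.1‖

/-- closeness of a family of states to the affine interpolation, in value and in differences -/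
def Close (e η : ℝ) (x : R3 → P4) (y : Fin 4 → P4) : Prop :=
  (∀ a : R3, ‖a‖ ≤ 1 → nw (x a - aff y a) ≤ e) ∧
  ∀ a b : R3, ‖a‖ ≤ 1 → ‖b‖ ≤ 1 → nw ((x a - x b) - (aff y a - aff y b)) ≤ η * ‖a - b‖

/-! ## Piece S: one step -/

def StmtS : Prop :=
  ∀ (h σ εr e η : ℝ) (y : Fin 4 → ℝ → P4) (φ : ℝ → P4 → P4) (x : R3 → P4),
    0 ≤ h → 0 < σ → σ ≤ 1/10^6 → 0 ≤ εr → 10^4 * σ ^ 2 + 10 * εr ≤ e → 10^4 * σ ^ 2 + 10 * εr ≤ η →
    e * Real.exp (8 * h) ≤ σ → η * Real.exp (8 * h) ≤ σ →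
    Tube h σ εr y → IsFlow (fb rb) φ → Close e η x (fun j => y j 0) →
    ∀ s ∈ Icc 0 h, Close (e * Real.exp (8 * s)) (η * Real.exp (8 * s)) (fun a => φ s (x a))
      (fun j => y j s)

/-! ## Piece X: zero of the final map by contraction -/

/-- the three final conditions, polarised -/
noncomputable def bet : Fin 3 → P4 → P4 → ℝ
  | 0, y, y' => ((starRingEnd ℂ) y.1.1 * y'.1.2).im
  | 1, y, y' => ((starRingEnd ℂ) y.1.1 * y'.2.1).re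
  | 2, y, y' => ((starRingEnd ℂ) y.1.1 * y'.2.2).re

def StmtX : Prop :=
  ∀ (X : R3 → P4) (W : Fin 4 → P4) (N : Fin 3 → Fin 3 → ℝ) (e η σ ν : ℝ),
    0 ≤ e → 0 ≤ η → 0 ≤ σ → e ≤ 1 → η ≤ 1 → σ ≤ 1 → 0 ≤ ν → Close e η X W →
    ‖W 0‖ ≤ 10 → (∀ j, ‖W j - W 0‖ ≤ σ) → (∀ i, ∑ j, |N i j| ≤ ν) →
    (∀ i k, |∑ j, N i j * (bet j (W k.succ - W 0) (W 0) + bet j (W 0) (W k.succ - W 0))
      - (if i = k then 1 else 0)| ≤ 1/20) →
    ν * (1000 * η + 1000 * σ * (σ + e)) ≤ 1/4 →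
    (∀ i, |∑ j, N i j * bet j (W 0) (W 0)| ≤ 1/4) → ν * (1000 * e) ≤ 1/8 →
    ∃ a : R3, ‖a‖ ≤ 1 ∧ ∀ j, bet j (X a) (X a) = 0

/-! ## Piece L: the cut-off field is globally Lipschitz -/

def StmtL : Prop := ∃ K : NNReal, LipschitzWith K (fb rb)

/-! ## Piece Y: symmetry, periodicity, winding numbers, Newton's equations -/

/-- winding number of a `T`-periodic loop in the punctured plane, by a continuous argument -/
def Wind (f : ℝ → ℂ) (T : ℝ) (k : ℤ) : Prop :=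
  ∃ θ : ℝ → ℝ, Continuous θ ∧ (∀ t, f t = (‖f t‖ : ℂ) * exp (θ t * I)) ∧
    ∀ t, θ (t + T) = θ t + 2 * Real.pi * k

/-- a collision-free periodic solution in the homology class `(1, 0, -1)` exists -/
def Goal : Prop :=
  ∃ (m : Fin 3 → ℝ) (T : ℝ) (x : Fin 3 → ℝ → ℂ), (∀ i, 0 < m i) ∧ 0 < T ∧
    (∀ i t, x i (t + T) = x i t) ∧ (∀ t, ∑ i, (m i : ℂ) * x i t = 0) ∧
    (∀ t i j, i ≠ j → x i t ≠ x j t) ∧
    (∀ i t, HasDerivAt (x i) (deriv (x i) t) t ∧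
      HasDerivAt (deriv (x i)) (∑ j ∈ Finset.univ.erase i,
        (m j : ℂ) * (x j t - x i t) / ((‖x j t - x i t‖ ^ 3 : ℝ) : ℂ)) t) ∧
    Wind (fun t => x 0 t - x 1 t) T 1 ∧ Wind (fun t => x 1 t - x 2 t) T 0 ∧
    Wind (fun t => x 2 t - x 0 t) T (-1)

/-- conditions on an orbit on `[0, T]` -/
structure Arc (T L : ℝ) (w : ℂ) (y : ℝ → P4) : Prop where
  hT : 0 < T
  hL : 0 < L
  sol : ∀ t, HasDerivAt y (fb rb (y t)) t
  ini : y 0 = (((L : ℂ), -(L : ℂ)), (w, w))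
  fA : ∀ t ∈ Icc 0 T, rb ≤ ‖(y t).1.1‖
  fB : ∀ t ∈ Icc 0 T, rb ≤ ‖(y t).1.2‖
  fC : ∀ t ∈ Icc 0 T, rb ≤ ‖(y t).1.2 - (y t).1.1‖
  reg : ∀ t ∈ Icc 0 T, ((y t).1.2 * (starRingEnd ℂ) (y t).1.1).re ≠ 0 ∨
    0 < ((y t).1.2 * (starRingEnd ℂ) (y t).1.1).im
  end0 : ∀ j, bet j (y T) (y T) = 0
  endp : 0 < ((y T).1.2 * (starRingEnd ℂ) (y T).1.1).re

def StmtY : Prop := StmtL → ∀ (T L : ℝ) (w : ℂ) (y : ℝ → P4), Arc T L w y → Goal

end Run7.h874.PB
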